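import Mathlib
import Pool.Agent.W545.Man.HalfBall
set_option autoImplicit false
open Set Filter Topology MeasureTheory Metric
open scoped ENNReal Manifold ContDiff

/-! Poincaré inequalities on a square half annulus. -/

namespace Pool.Agent.W749.D1
open Pool.Agent.W545.Man hiding sq


/-- square half ball -/
def SQ (x0 ρ : ℝ) : Set (EE 1) := {y | |y 1 - x0| ≤ ρ ∧ 0 ≤ y 0 ∧ y 0 ≤ ρ}

/-- square half annulus -/
def AQ (x0 ρ : ℝ) : Set (EE 1) := SQ x0 (2 * ρ) ∩ {y | ρ ≤ |y 1 - x0| ∨ ρ ≤ y 0}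

/-- rectangle -/
def BX (a b a' b' : ℝ) : Set (EE 1) := {y | (a ≤ y 1 ∧ y 1 ≤ b) ∧ a' ≤ y 0 ∧ y 0 ≤ b'}

theorem BX_closed (a b a' b' : ℝ) : IsClosed (BX a b a' b') := by
  have h1 : Continuous fun y : EE 1 => y 1 := by fun_prop
  have h0 : Continuous fun y : EE 1 => y 0 := by fun_prop
  exact ((isClosed_le continuous_const h1).inter (isClosed_le h1 continuous_const)).inter
    ((isClosed_le continuous_const h0).inter (isClosed_le h0 continuous_const))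

theorem norm_le_coord (y : EE 1) : ‖y‖ ≤ |y 1| + |y 0| := by
  rw [EuclideanSpace.norm_eq, Fin.sum_univ_two]
  apply Real.sqrt_le_iff.2
  refine ⟨by positivity, ?_⟩
  rw [Real.norm_eq_abs, Real.norm_eq_abs]
  nlinarith [abs_nonneg (y 0), abs_nonneg (y 1), mul_nonneg (abs_nonneg (y 1)) (abs_nonneg (y 0))]

theorem BX_diam {a b a' b' : ℝ} {x z : EE 1} (hx : x ∈ BX a b a' b') (hz : z ∈ BX a b a' b') :
    ‖z - x‖ ≤ (b - a) + (b' - a') := by
  refine (norm_le_coord _).trans ?_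
  have e1 : (z - x) 1 = z 1 - x 1 := rfl
  have e0 : (z - x) 0 = z 0 - x 0 := rfl
  rw [e1, e0]
  obtain ⟨⟨h1, h2⟩, h3, h4⟩ := hx
  obtain ⟨⟨g1, g2⟩, g3, g4⟩ := hz
  have := abs_le.2 (show -(b - a) ≤ z 1 - x 1 ∧ z 1 - x 1 ≤ b - a from ⟨by linarith, by linarith⟩)
  have := abs_le.2 (show -(b' - a') ≤ z 0 - x 0 ∧ z 0 - x 0 ≤ b' - a' from
    ⟨by linarith, by linarith⟩)
  linarith

theorem BX_compact (a b a' b' : ℝ) : IsCompact (BX a b a' b') := by
  by_cases hne : (BX a b a' b').Nonempty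
  · obtain ⟨x, hx⟩ := hne
    apply (isCompact_closedBall x ((b - a) + (b' - a'))).of_isClosed_subset (BX_closed a b a' b')
    intro z hz
    rw [mem_closedBall, dist_eq_norm]
    exact BX_diam hx hz
  · rw [not_nonempty_iff_eq_empty] at hne
    rw [hne]
    exact isCompact_empty

theorem BX_meas (a b a' b' : ℝ) : MeasurableSet (BX a b a' b') := (BX_closed a b a' b').measurableSet

theorem BX_convex (a b a' b' : ℝ) : Convex ℝ (BX a b a' b') := by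
  rintro x ⟨⟨h1, h2⟩, h3, h4⟩ z ⟨⟨g1, g2⟩, g3, g4⟩ s t hs ht hst
  have e1 : (s • x + t • z) 1 = s * x 1 + t * z 1 := rfl
  have e0 : (s • x + t • z) 0 = s * x 0 + t * z 0 := rfl
  have hs' : s = 1 - t := by linarith
  refine ⟨⟨?_, ?_⟩, ?_, ?_⟩
  · rw [e1, hs']; nlinarith
  · rw [e1, hs']; nlinarith
  · rw [e0, hs']; nlinarith
  · rw [e0, hs']; nlinarith

theorem BX_vol (a b a' b' : ℝ) :
    volume (BX a b a' b') = ENNReal.ofReal (b - a) * ENNReal.ofReal (b' - a') := by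
  have e : BX a b a' b' = WithLp.ofLp ⁻¹' (univ.pi ![Icc a' b', Icc a b]) := by
    ext y
    rw [mem_preimage, mem_univ_pi, Fin.forall_fin_two]
    constructor
    · rintro ⟨h1, h2⟩; exact ⟨h2, h1⟩
    · rintro ⟨h1, h2⟩; exact ⟨h2, h1⟩
  rw [e, (PiLp.volume_preserving_ofLp (Fin 2)).measure_preimage]
  · rw [volume_pi_pi, Fin.prod_univ_two]
    show volume (Icc a' b') * volume (Icc a b) = _
    rw [Real.volume_Icc, Real.volume_Icc, mul_comm]
  · apply MeasurableSet.nullMeasurableSet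
    apply MeasurableSet.univ_pi
    intro i
    refine Fin.cases ?_ (fun j => ?_) i
    · exact measurableSet_Icc
    · refine Fin.cases ?_ (fun k => k.elim0) j
      exact measurableSet_Icc

/-- comparison of the deviations -/
theorem cmp {X Z : Type*} [MeasurableSpace X] [MeasurableSpace Z] {α : Measure X} {β : Measure Z}
    {f : X → ℝ} {h : Z → ℝ} (hh : AEMeasurable h β) (c : ℝ) (hβ : β univ ≠ ⊤) :
    β univ * ∫⁻ x, Pool.Agent.W545.Man.sq (f x - c) ∂α ≤ 2 * ∫⁻ x, ∫⁻ z, Pool.Agent.W545.Man.sq (f x - h z) ∂β ∂α +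
      2 * (α univ * ∫⁻ z, Pool.Agent.W545.Man.sq (h z - c) ∂β) := by
  have hm : AEMeasurable (fun z => 2 * Pool.Agent.W545.Man.sq (h z - c)) β := by
    unfold Pool.Agent.W545.Man.sq
    exact (ENNReal.measurable_ofReal.comp_aemeasurable ((hh.sub_const c).pow_const 2)).const_mul _
  rw [← lintegral_const_mul' _ _ hβ]
  calc ∫⁻ x, β univ * Pool.Agent.W545.Man.sq (f x - c) ∂α
      = ∫⁻ x, ∫⁻ _, Pool.Agent.W545.Man.sq (f x - c) ∂β ∂α := by
        apply lintegral_congr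
        intro x
        rw [lintegral_const, mul_comm]
    _ ≤ ∫⁻ x, ((2 * ∫⁻ z, Pool.Agent.W545.Man.sq (f x - h z) ∂β) + 2 * ∫⁻ z, Pool.Agent.W545.Man.sq (h z - c) ∂β) ∂α := by
        apply lintegral_mono
        intro x
        simp only
        rw [← lintegral_const_mul' 2 _ (by simp), ← lintegral_const_mul' 2 _ (by simp),
          ← lintegral_add_right' _ hm]
        apply lintegral_mono
        intro z
        simp only
        have : f x - c = (f x - h z) + (h z - c) := by ring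
        rw [this]
        exact sq_add_le _ _
    _ = _ := by
        rw [lintegral_add_right _ measurable_const, lintegral_const,
          lintegral_const_mul' 2 _ (by simp), mul_assoc 2 _ (α univ), mul_comm _ (α univ)]

/-- the average minimises the quadratic deviation -/
theorem avg_est {Z : Type*} [MeasurableSpace Z] {β : Measure Z} [IsFiniteMeasure β]
    {h : Z → ℝ} (hi : Integrable h β) (hi2 : Integrable (fun z => h z ^ 2) β) (a : ℝ) :
    β univ * Pool.Agent.W545.Man.sq (a - (β univ).toReal⁻¹ * ∫ z, h z ∂β) ≤ ∫⁻ z, Pool.Agent.W545.Man.sq (a - h z) ∂β := by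
  by_cases h0 : β univ = 0
  · rw [h0, zero_mul]; exact zero_le
  have hV : 0 < (β univ).toReal := ENNReal.toReal_pos h0 (measure_ne_top β univ)
  set V := (β univ).toReal with hVdef
  set I := ∫ z, h z ∂β with hI
  have h1 : ∫ z, (a - h z) ^ 2 ∂β = V * a ^ 2 - 2 * a * I + ∫ z, h z ^ 2 ∂β := by
    have e : (fun z => (a - h z) ^ 2) = fun z => (a ^ 2 - 2 * a * h z) + h z ^ 2 := by
      funext z; ring
    have e1 : Integrable (fun z => a ^ 2 - 2 * a * h z) β := (integrable_const _).sub (hi.const_mul _)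
    rw [e, integral_add e1 hi2,
      integral_sub (integrable_const _) (hi.const_mul _), integral_const_mul, integral_const]
    simp [hVdef, hI, Measure.real]
  have h2 : I ^ 2 ≤ V * ∫ z, h z ^ 2 ∂β := by
    have h3 : 0 ≤ ∫ z, (V⁻¹ * I - h z) ^ 2 ∂β := integral_nonneg fun z => sq_nonneg _
    have e : (fun z => (V⁻¹ * I - h z) ^ 2) = fun z => ((V⁻¹ * I) ^ 2 - 2 * (V⁻¹ * I) * h z) + h z ^ 2 := by
      funext z; ring
    have e1 : Integrable (fun z => (V⁻¹ * I) ^ 2 - 2 * (V⁻¹ * I) * h z) β :=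
      (integrable_const _).sub (hi.const_mul _)
    rw [e, integral_add e1 hi2,
      integral_sub (integrable_const _) (hi.const_mul _), integral_const_mul, integral_const] at h3
    simp only [smul_eq_mul, Measure.real, ← hVdef, ← hI] at h3
    have e2 : V * ((V⁻¹ * I) ^ 2) - 2 * (V⁻¹ * I) * I = - (V⁻¹ * I ^ 2) := by
      field_simp; ring
    rw [e2] at h3
    have h4 : V⁻¹ * I ^ 2 ≤ ∫ z, h z ^ 2 ∂β := by linarith
    rw [inv_mul_le_iff₀ hV] at h4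
    exact h4
  have h3 : V * (a - V⁻¹ * I) ^ 2 ≤ ∫ z, (a - h z) ^ 2 ∂β := by
    rw [h1]
    have e2 : V * (a - V⁻¹ * I) ^ 2 = V * a ^ 2 - 2 * a * I + V⁻¹ * I ^ 2 := by
      field_simp; ring
    rw [e2]
    have : V⁻¹ * I ^ 2 ≤ ∫ z, h z ^ 2 ∂β := by rwa [inv_mul_le_iff₀ hV]
    linarith
  have hint : Integrable (fun z => (a - h z) ^ 2) β := by
    have e : (fun z => (a - h z) ^ 2) = fun z => (a ^ 2 - 2 * a * h z) + h z ^ 2 := by
      funext z; ring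
    rw [e]
    exact ((integrable_const _).sub (hi.const_mul _)).add hi2
  unfold Pool.Agent.W545.Man.sq
  rw [← ofReal_integral_eq_lintegral_ofReal hint (ae_of_all _ fun z => sq_nonneg _),
    ← ENNReal.ofReal_toReal (measure_ne_top β univ), ← hVdef, ← ENNReal.ofReal_mul hV.le]
  exact ENNReal.ofReal_le_ofReal h3

/-- the upper rectangle -/
abbrev TT (x0 ρ : ℝ) : Set (EE 1) := BX (x0 - 2 * ρ) (x0 + 2 * ρ) ρ (2 * ρ)

/-- the average over the upper rectangle -/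
noncomputable def avT (x0 ρ : ℝ) (w : EE 1 → ℝ) : ℝ :=
  (volume (TT x0 ρ)).toReal⁻¹ * ∫ z in TT x0 ρ, w z

theorem TT_vol {x0 ρ : ℝ} (hρ : 0 < ρ) : volume (TT x0 ρ) = ENNReal.ofReal (4 * ρ ^ 2) := by
  rw [BX_vol, ← ENNReal.ofReal_mul (by linarith)]
  congr 1; ring

theorem bulk' {K Z : Set (EE 1)} (hK : Convex ℝ K) (hKc : IsCompact K) (hZK : Z ⊆ K)
    (hZm : MeasurableSet Z) {w : EE 1 → ℝ}
    {L : EE 1 → (EE 1 →L[ℝ] ℝ)} (hL : ContinuousOn L K)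
    (hw : ∀ y ∈ K, HasFDerivWithinAt w (L y) K y) {ρ : ℝ} (hρ : ∀ x ∈ K, ∀ z ∈ K, ‖z - x‖ ≤ 5 * ρ) :
    ∫⁻ x in K, ∫⁻ z in Z, Pool.Agent.W545.Man.sq (w x - w z) ≤
      ENNReal.ofReal (100 * ρ ^ 2) * (volume K * ∫⁻ y in K, Pool.Agent.W545.Man.sq ‖L y‖) := by
  refine (bulk volume hK hZK hL hw (sq_meas_ind hKc hL) hKc.measurableSet hZm hρ).trans ?_
  rw [finrank_euclideanSpace_fin, mul_assoc (ENNReal.ofReal _), ← mul_assoc,
    ← ENNReal.ofReal_mul (by positivity)]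
  apply le_of_eq
  congr 2
  ring

theorem T_est {x0 ρ : ℝ} (hρ : 0 < ρ) {w : EE 1 → ℝ}
    {L : EE 1 → (EE 1 →L[ℝ] ℝ)} (hL : ContinuousOn L (TT x0 ρ))
    (hw : ∀ y ∈ TT x0 ρ, HasFDerivWithinAt w (L y) (TT x0 ρ) y)
    (hwc : ContinuousOn w (TT x0 ρ)) :
    ∫⁻ x in TT x0 ρ, Pool.Agent.W545.Man.sq (w x - avT x0 ρ w) ≤
      ENNReal.ofReal (100 * ρ ^ 2) * ∫⁻ y in TT x0 ρ, Pool.Agent.W545.Man.sq ‖L y‖ := by
  have hc := BX_compact (x0 - 2 * ρ) (x0 + 2 * ρ) ρ (2 * ρ)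
  have h1 := bulk' (BX_convex _ _ _ _) hc Subset.rfl hc.measurableSet hL hw (ρ := ρ)
    (fun x hx z hz => (BX_diam hx hz).trans (by linarith))
  have : IsFiniteMeasure (volume.restrict (TT x0 ρ)) := ⟨by
    rw [Measure.restrict_apply_univ]; exact hc.measure_lt_top⟩
  have h2 : volume (TT x0 ρ) * ∫⁻ x in TT x0 ρ, Pool.Agent.W545.Man.sq (w x - avT x0 ρ w) ≤
      ∫⁻ x in TT x0 ρ, ∫⁻ z in TT x0 ρ, Pool.Agent.W545.Man.sq (w x - w z) := by
    rw [← lintegral_const_mul' _ _ hc.measure_lt_top.ne]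
    apply lintegral_mono
    intro x
    have h3 := avg_est (β := volume.restrict (TT x0 ρ)) (h := w) (hwc.integrableOn_compact hc)
      ((hwc.pow 2).integrableOn_compact hc) (w x)
    rw [Measure.restrict_apply_univ] at h3
    exact h3
  have h4 := h2.trans h1
  have e : ENNReal.ofReal (100 * ρ ^ 2) * (volume (TT x0 ρ) * ∫⁻ y in TT x0 ρ, Pool.Agent.W545.Man.sq ‖L y‖) =
      volume (TT x0 ρ) * (ENNReal.ofReal (100 * ρ ^ 2) * ∫⁻ y in TT x0 ρ, Pool.Agent.W545.Man.sq ‖L y‖) := by ring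
  rw [e] at h4
  have hV0 : volume (TT x0 ρ) ≠ 0 := by
    rw [TT_vol hρ, Ne, ENNReal.ofReal_eq_zero, not_le]; positivity
  exact (ENNReal.mul_le_mul_iff_right hV0 hc.measure_lt_top.ne).1 h4

/-- deviation from the average on another rectangle -/
theorem side_est {x0 ρ a b : ℝ} (hρ : 0 < ρ) {K Z : Set (EE 1)} (hKdef : K = BX a b 0 (2 * ρ))
    (hZdef : Z = BX a b ρ (2 * ρ)) (hab : b - a = ρ) (hZT : Z ⊆ TT x0 ρ) {w : EE 1 → ℝ}
    {L : EE 1 → (EE 1 →L[ℝ] ℝ)} (hL : ContinuousOn L K)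
    (hw : ∀ y ∈ K, HasFDerivWithinAt w (L y) K y) (hLT : ContinuousOn L (TT x0 ρ))
    (hwT : ∀ y ∈ TT x0 ρ, HasFDerivWithinAt w (L y) (TT x0 ρ) y)
    (hwc : ContinuousOn w (TT x0 ρ)) :
    ∫⁻ x in K, Pool.Agent.W545.Man.sq (w x - avT x0 ρ w) ≤
      ENNReal.ofReal (400 * ρ ^ 2) * ((∫⁻ y in K, Pool.Agent.W545.Man.sq ‖L y‖) + ∫⁻ y in TT x0 ρ, Pool.Agent.W545.Man.sq ‖L y‖) := by
  have hKc : IsCompact K := by rw [hKdef]; exact BX_compact _ _ _ _
  have hZc : IsCompact Z := by rw [hZdef]; exact BX_compact _ _ _ _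
  have hZK : Z ⊆ K := by
    rw [hZdef, hKdef]
    rintro y ⟨h1, h2, h3⟩
    exact ⟨h1, by linarith, h3⟩
  have hKv : volume K = ENNReal.ofReal (2 * ρ ^ 2) := by
    rw [hKdef, BX_vol, hab, ← ENNReal.ofReal_mul hρ.le]; congr 1; ring
  have hZv : volume Z = ENNReal.ofReal (ρ ^ 2) := by
    rw [hZdef, BX_vol, hab, ← ENNReal.ofReal_mul hρ.le]; congr 1; ring
  have h1 := bulk' (by rw [hKdef]; exact BX_convex _ _ _ _) hKc hZK hZc.measurableSet hL hw (ρ := ρ)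
    (by
      rw [hKdef]
      intro x hx z hz
      exact (BX_diam hx hz).trans (by linarith))
  have h2 := T_est hρ hLT hwT hwc
  have h3 := cmp (α := volume.restrict K) (β := volume.restrict Z) (f := w) (h := w)
    ((hwc.mono hZT).aemeasurable hZc.measurableSet) (avT x0 ρ w)
    (by rw [Measure.restrict_apply_univ]; exact hZc.measure_lt_top.ne)
  rw [Measure.restrict_apply_univ, Measure.restrict_apply_univ] at h3
  have h4 : ∫⁻ z in Z, Pool.Agent.W545.Man.sq (w z - avT x0 ρ w) ≤ ENNReal.ofReal (100 * ρ ^ 2) *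
      ∫⁻ y in TT x0 ρ, Pool.Agent.W545.Man.sq ‖L y‖ := (lintegral_mono_set hZT).trans h2
  have h5 : volume Z * ∫⁻ x in K, Pool.Agent.W545.Man.sq (w x - avT x0 ρ w) ≤
      volume Z * (ENNReal.ofReal (400 * ρ ^ 2) *
        ((∫⁻ y in K, Pool.Agent.W545.Man.sq ‖L y‖) + ∫⁻ y in TT x0 ρ, Pool.Agent.W545.Man.sq ‖L y‖)) := by
    calc volume Z * ∫⁻ x in K, Pool.Agent.W545.Man.sq (w x - avT x0 ρ w) ≤ _ := h3
      _ ≤ 2 * (ENNReal.ofReal (100 * ρ ^ 2) * (volume K * ∫⁻ y in K, Pool.Agent.W545.Man.sq ‖L y‖)) +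
          2 * (volume K * (ENNReal.ofReal (100 * ρ ^ 2) * ∫⁻ y in TT x0 ρ, Pool.Agent.W545.Man.sq ‖L y‖)) := by
          gcongr
      _ = (2 * ENNReal.ofReal (100 * ρ ^ 2) * volume K) *
          ((∫⁻ y in K, Pool.Agent.W545.Man.sq ‖L y‖) + ∫⁻ y in TT x0 ρ, Pool.Agent.W545.Man.sq ‖L y‖) := by ring
      _ = _ := by
          rw [← mul_assoc]
          congr 1
          have : (2 : ℝ≥0∞) = ENNReal.ofReal 2 := by simp
          rw [hKv, hZv, this, ← ENNReal.ofReal_mul (by norm_num), ← ENNReal.ofReal_mul (by positivity),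
            ← ENNReal.ofReal_mul (by positivity)]
          congr 1
          ring
  have hZ0 : volume Z ≠ 0 := by
    rw [hZv, Ne, ENNReal.ofReal_eq_zero, not_le]; positivity
  exact (ENNReal.mul_le_mul_iff_right hZ0 hZc.measure_lt_top.ne).1 h5

theorem SQ_eq (x0 ρ : ℝ) : SQ x0 ρ = BX (x0 - ρ) (x0 + ρ) 0 ρ := by
  ext y
  unfold SQ BX
  rw [mem_ofPred_eq, mem_ofPred_eq, abs_le]
  constructor
  · rintro ⟨⟨h1, h2⟩, h3, h4⟩
    exact ⟨⟨by linarith, by linarith⟩, h3, h4⟩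
  · rintro ⟨⟨h1, h2⟩, h3, h4⟩
    exact ⟨⟨by linarith, by linarith⟩, h3, h4⟩

theorem SQ_compact (x0 ρ : ℝ) : IsCompact (SQ x0 ρ) := by rw [SQ_eq]; exact BX_compact _ _ _ _

theorem AQ_eq {x0 ρ : ℝ} (hρ : 0 < ρ) : AQ x0 ρ = (TT x0 ρ ∪ BX (x0 - 2 * ρ) (x0 - ρ) 0 (2 * ρ)) ∪
    BX (x0 + ρ) (x0 + 2 * ρ) 0 (2 * ρ) := by
  ext y
  unfold AQ
  rw [SQ_eq]
  simp only [BX, mem_inter_iff, mem_union, mem_ofPred_eq, le_abs]
  constructor
  · rintro ⟨⟨⟨h1, h2⟩, h3, h4⟩, (h5 | h5) | h5⟩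
    · exact Or.inr ⟨⟨by linarith, by linarith⟩, h3, h4⟩
    · exact Or.inl (Or.inr ⟨⟨by linarith, by linarith⟩, h3, h4⟩)
    · exact Or.inl (Or.inl ⟨⟨by linarith, by linarith⟩, h5, h4⟩)
  · rintro ((⟨⟨h1, h2⟩, h3, h4⟩ | ⟨⟨h1, h2⟩, h3, h4⟩) | ⟨⟨h1, h2⟩, h3, h4⟩)
    · exact ⟨⟨⟨by linarith, by linarith⟩, by linarith, h4⟩, Or.inr h3⟩
    · exact ⟨⟨⟨by linarith, by linarith⟩, h3, h4⟩, Or.inl (Or.inr (by linarith))⟩
    · exact ⟨⟨⟨by linarith, by linarith⟩, h3, h4⟩, Or.inl (Or.inl (by linarith))⟩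

theorem AQ_compact {x0 ρ : ℝ} (hρ : 0 < ρ) : IsCompact (AQ x0 ρ) := by
  rw [AQ_eq hρ]
  exact ((BX_compact _ _ _ _).union (BX_compact _ _ _ _)).union (BX_compact _ _ _ _)

theorem euclid_bulk {x0 ρ : ℝ} (hρ : 0 < ρ) {w : EE 1 → ℝ}
    {L : EE 1 → (EE 1 →L[ℝ] ℝ)} (hL : ContinuousOn L (AQ x0 ρ))
    (hw : ∀ y ∈ AQ x0 ρ, HasFDerivWithinAt w (L y) (AQ x0 ρ) y)
    (hwc : ContinuousOn w (AQ x0 ρ)) :
    ∫⁻ x in AQ x0 ρ, Pool.Agent.W545.Man.sq (w x - avT x0 ρ w) ≤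
      ENNReal.ofReal (1700 * ρ ^ 2) * ∫⁻ y in AQ x0 ρ, Pool.Agent.W545.Man.sq ‖L y‖ := by
  set c := avT x0 ρ w
  set I := ∫⁻ y in AQ x0 ρ, Pool.Agent.W545.Man.sq ‖L y‖ with hI
  have hT : TT x0 ρ ⊆ AQ x0 ρ := by
    rw [AQ_eq hρ]; exact fun y hy => Or.inl (Or.inl hy)
  have hl : BX (x0 - 2 * ρ) (x0 - ρ) 0 (2 * ρ) ⊆ AQ x0 ρ := by
    rw [AQ_eq hρ]; exact fun y hy => Or.inl (Or.inr hy)
  have hr : BX (x0 + ρ) (x0 + 2 * ρ) 0 (2 * ρ) ⊆ AQ x0 ρ := by
    rw [AQ_eq hρ]; exact fun y hy => Or.inr hy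
  have h1 := T_est hρ (hL.mono hT) (fun y hy => (hw y (hT hy)).mono hT) (hwc.mono hT)
  have h2 := side_est (x0 := x0) hρ (K := BX (x0 - 2 * ρ) (x0 - ρ) 0 (2 * ρ)) rfl rfl (by ring)
    (by
      rintro y ⟨⟨h1, h2⟩, h3, h4⟩
      exact ⟨⟨h1, by linarith⟩, h3, h4⟩)
    (hL.mono hl) (fun y hy => (hw y (hl hy)).mono hl) (hL.mono hT)
    (fun y hy => (hw y (hT hy)).mono hT) (hwc.mono hT)
  have h3 := side_est (x0 := x0) hρ (K := BX (x0 + ρ) (x0 + 2 * ρ) 0 (2 * ρ)) rfl rfl (by ring)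
    (by
      rintro y ⟨⟨h1, h2⟩, h3, h4⟩
      exact ⟨⟨by linarith, h2⟩, h3, h4⟩)
    (hL.mono hr) (fun y hy => (hw y (hr hy)).mono hr) (hL.mono hT)
    (fun y hy => (hw y (hT hy)).mono hT) (hwc.mono hT)
  have iT : ∫⁻ y in TT x0 ρ, Pool.Agent.W545.Man.sq ‖L y‖ ≤ I := lintegral_mono_set hT
  have il : ∫⁻ y in BX (x0 - 2 * ρ) (x0 - ρ) 0 (2 * ρ), Pool.Agent.W545.Man.sq ‖L y‖ ≤ I := lintegral_mono_set hl
  have ir : ∫⁻ y in BX (x0 + ρ) (x0 + 2 * ρ) 0 (2 * ρ), Pool.Agent.W545.Man.sq ‖L y‖ ≤ I := lintegral_mono_set hr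
  calc ∫⁻ x in AQ x0 ρ, Pool.Agent.W545.Man.sq (w x - c) ≤ ((∫⁻ x in TT x0 ρ, Pool.Agent.W545.Man.sq (w x - c)) +
        ∫⁻ x in BX (x0 - 2 * ρ) (x0 - ρ) 0 (2 * ρ), Pool.Agent.W545.Man.sq (w x - c)) +
        ∫⁻ x in BX (x0 + ρ) (x0 + 2 * ρ) 0 (2 * ρ), Pool.Agent.W545.Man.sq (w x - c) := by
        rw [AQ_eq hρ]
        refine (lintegral_union_le _ _ _).trans ?_
        gcongr
        exact lintegral_union_le _ _ _
    _ ≤ (ENNReal.ofReal (100 * ρ ^ 2) * I + ENNReal.ofReal (400 * ρ ^ 2) * (I + I)) +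
        ENNReal.ofReal (400 * ρ ^ 2) * (I + I) := by
        gcongr
        · exact h1.trans (by gcongr)
        · exact h2.trans (by gcongr)
        · exact h3.trans (by gcongr)
    _ = (ENNReal.ofReal (100 * ρ ^ 2) + (ENNReal.ofReal (400 * ρ ^ 2) * 2 +
        ENNReal.ofReal (400 * ρ ^ 2) * 2)) * I := by ring
    _ = _ := by
        congr 1
        have : (2 : ℝ≥0∞) = ENNReal.ofReal 2 := by simp
        rw [this, ← ENNReal.ofReal_mul (by positivity), ← ENNReal.ofReal_add (by positivity)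
          (by positivity), ← ENNReal.ofReal_add (by positivity) (by positivity)]
        congr 1
        ring

theorem HB_SQ (p : FF 1) (r : ℝ) : HB p r ⊆ SQ (p 0) r := by
  rintro y ⟨h1, h2⟩
  rw [mem_closedBall, dist_eq_norm] at h1
  have e1 : (y - inj p : EE 1) 1 = y 1 - p 0 := rfl
  have e0 : (y - inj p : EE 1) 0 = y 0 := by
    show y 0 - inj p 0 = y 0
    rw [inj_zero_coord, sub_zero]
  have h3 := (abs_coord_le _ 1).trans h1
  have h4 := (abs_coord_le _ 0).trans h1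
  rw [e1] at h3
  rw [e0] at h4
  exact ⟨h3, h2, (abs_le.1 h4).2⟩

/-- the constant of the trace estimate -/
noncomputable def C2 : ℝ := 2112 * ((volume (ball (0 : FF 1) 1)).toReal /
  (volume (ball (0 : EE 1) 1)).toReal)

theorem C2_nonneg : 0 ≤ C2 := by
  unfold C2
  positivity

theorem euclid_trace {p : FF 1} {ρ : ℝ} (hρ : 0 < ρ) {w : EE 1 → ℝ}
    {L : EE 1 → (EE 1 →L[ℝ] ℝ)} (hL : ContinuousOn L (SQ (p 0) (2 * ρ)))
    (hw : ∀ y ∈ SQ (p 0) (2 * ρ), HasFDerivWithinAt w (L y) (SQ (p 0) (2 * ρ)) y)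
    (hwc : ContinuousOn w (SQ (p 0) (2 * ρ))) :
    ∫⁻ x in closedBall p (2 * ρ), Pool.Agent.W545.Man.sq (w (inj x) - avT (p 0) ρ w) ≤
      ENNReal.ofReal (C2 * ρ) * ∫⁻ y in SQ (p 0) (2 * ρ), Pool.Agent.W545.Man.sq ‖L y‖ := by
  have h2ρ : 0 < 2 * ρ := by positivity
  have hHB := HB_SQ p (2 * ρ)
  have hTT : TT (p 0) ρ ⊆ SQ (p 0) (2 * ρ) := by
    rw [SQ_eq]
    rintro y ⟨h1, h2, h3⟩
    exact ⟨h1, by linarith, h3⟩
  have hZT : ZB p (2 * ρ) ⊆ TT (p 0) ρ := by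
    intro z hz
    have h1 := hHB (ZB_sub h2ρ hz)
    have h2 := ZB_coord hz
    have h3 := abs_le.1 h1.1
    exact ⟨⟨by linarith, by linarith⟩, by linarith, by linarith⟩
  have hZc : IsCompact (ZB p (2 * ρ)) := isCompact_closedBall _ _
  have hmain := trace_est volume volume (injL 1) (tailL 1)
    (EuclideanSpace.proj (𝕜 := ℝ) (0 : Fin (1 + 1))) tail_inj norm_tail_le (fun x => rfl)
    (by rw [finrank_euclideanSpace_fin, finrank_euclideanSpace_fin]) h2ρ (HB_convex p (2 * ρ))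
    (HB_meas p (2 * ρ)) (Z := ZB p (2 * ρ)) isClosed_closedBall.measurableSet
    (fun x hx => inj_mem_HB.2 hx) (ZB_sub h2ρ) inter_subset_left (fun z hz => (ZB_coord hz).1)
    (fun z hz => (ZB_coord hz).2) (hL.mono hHB) (fun y hy => (hw y (hHB hy)).mono hHB)
    (sq_meas_ind (HB_compact p (2 * ρ)) (hL.mono hHB))
  rw [finrank_euclideanSpace_fin] at hmain
  have h2 := T_est hρ (hL.mono hTT) (fun y hy => (hw y (hTT hy)).mono hTT) (hwc.mono hTT)
  have h3 := cmp (α := volume.restrict (closedBall p (2 * ρ))) (β := volume.restrict (ZB p (2 * ρ)))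
    (f := fun x => w (injL 1 x)) (h := w)
    ((hwc.mono (hZT.trans hTT)).aemeasurable hZc.measurableSet) (avT (p 0) ρ w)
    (by rw [Measure.restrict_apply_univ]; exact hZc.measure_lt_top.ne)
  rw [Measure.restrict_apply_univ, Measure.restrict_apply_univ] at h3
  have h4 : ∫⁻ z in ZB p (2 * ρ), Pool.Agent.W545.Man.sq (w z - avT (p 0) ρ w) ≤ ENNReal.ofReal (100 * ρ ^ 2) *
      ∫⁻ y in TT (p 0) ρ, Pool.Agent.W545.Man.sq ‖L y‖ := (lintegral_mono_set hZT).trans h2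
  set I := ∫⁻ y in SQ (p 0) (2 * ρ), Pool.Agent.W545.Man.sq ‖L y‖ with hI
  have i1 : ∫⁻ y in TT (p 0) ρ, Pool.Agent.W545.Man.sq ‖L y‖ ≤ I := lintegral_mono_set hTT
  have i2 : ∫⁻ y in HB p (2 * ρ), Pool.Agent.W545.Man.sq ‖L y‖ ≤ I := lintegral_mono_set hHB
  have hv1 : 0 < (volume (ball (0 : FF 1) 1)).toReal :=
    ENNReal.toReal_pos (measure_ball_pos _ _ one_pos).ne' measure_ball_lt_top.ne
  have hv2 : 0 < (volume (ball (0 : EE 1) 1)).toReal :=
    ENNReal.toReal_pos (measure_ball_pos _ _ one_pos).ne' measure_ball_lt_top.ne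
  have eD : volume (closedBall p (2 * ρ)) =
      ENNReal.ofReal (2 * ρ * (volume (ball (0 : FF 1) 1)).toReal) := by
    rw [Measure.addHaar_closedBall _ _ h2ρ.le, finrank_euclideanSpace_fin, pow_one,
      ENNReal.ofReal_mul h2ρ.le, ENNReal.ofReal_toReal measure_ball_lt_top.ne]
  have eZ : volume (ZB p (2 * ρ)) =
      ENNReal.ofReal (ρ ^ 2 / 4 * (volume (ball (0 : EE 1) 1)).toReal) := by
    rw [ZB_vol h2ρ, ENNReal.ofReal_mul (by positivity), ENNReal.ofReal_toReal measure_ball_lt_top.ne]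
    congr 2
    ring
  have key : (2 * ENNReal.ofReal ((2 * (2 * ρ)) ^ 2) * ENNReal.ofReal (2 ^ 1) +
      2 * ENNReal.ofReal (100 * ρ ^ 2)) * volume (closedBall p (2 * ρ)) =
      volume (ZB p (2 * ρ)) * ENNReal.ofReal (C2 * ρ) := by
    have hC : C2 = 2112 * ((volume (ball (0 : FF 1) 1)).toReal /
      (volume (ball (0 : EE 1) 1)).toReal) := rfl
    rw [eD, eZ, hC]
    generalize (volume (ball (0 : FF 1) 1)).toReal = V1 at hv1
    generalize (volume (ball (0 : EE 1) 1)).toReal = V2 at hv2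
    have : (2 : ℝ≥0∞) = ENNReal.ofReal 2 := by simp
    rw [this, ← ENNReal.ofReal_mul (by norm_num), ← ENNReal.ofReal_mul (by positivity),
      ← ENNReal.ofReal_mul (by norm_num), ← ENNReal.ofReal_add (by positivity) (by positivity),
      ← ENNReal.ofReal_mul (by positivity), ← ENNReal.ofReal_mul (by positivity)]
    congr 1
    field_simp
    ring
  have h5 : volume (ZB p (2 * ρ)) * ∫⁻ x in closedBall p (2 * ρ), Pool.Agent.W545.Man.sq (w (inj x) - avT (p 0) ρ w) ≤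
      volume (ZB p (2 * ρ)) * (ENNReal.ofReal (C2 * ρ) * I) := by
    calc volume (ZB p (2 * ρ)) * ∫⁻ x in closedBall p (2 * ρ), Pool.Agent.W545.Man.sq (w (inj x) - avT (p 0) ρ w)
        ≤ _ := h3
      _ ≤ 2 * (ENNReal.ofReal ((2 * (2 * ρ)) ^ 2) * (ENNReal.ofReal (2 ^ 1) *
          volume (closedBall p (2 * ρ)) * I)) +
          2 * (volume (closedBall p (2 * ρ)) * (ENNReal.ofReal (100 * ρ ^ 2) * I)) := by
          gcongr
          · exact hmain.trans (by gcongr)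
          · exact h4.trans (by gcongr)
      _ = ((2 * ENNReal.ofReal ((2 * (2 * ρ)) ^ 2) * ENNReal.ofReal (2 ^ 1) +
          2 * ENNReal.ofReal (100 * ρ ^ 2)) * volume (closedBall p (2 * ρ))) * I := by ring
      _ = _ := by rw [key, mul_assoc]
  have hZ0 : volume (ZB p (2 * ρ)) ≠ 0 := by
    rw [eZ, Ne, ENNReal.ofReal_eq_zero, not_le]; positivity
  exact (ENNReal.mul_le_mul_iff_right hZ0 hZc.measure_lt_top.ne).1 h5

end Pool.Agent.W749.D1
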