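import Mathlib
import Pool.Agent.W545.Man.Bubble
import Pool.Agent.W749.D1.Euclid
set_option autoImplicit false
open Set Filter Topology MeasureTheory Metric
open scoped ENNReal Manifold ContDiff

/-! Local data at a boundary point of a surface. -/

namespace Pool.Agent.W749.D1
open Pool.Agent.W545.Man hiding sq


/-- smooth bump on the line -/
noncomputable def φ1 : ContDiffBump (0 : ℝ) := ⟨1, 3 / 2, one_pos, by norm_num⟩

/-- smooth bump on the plane -/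
noncomputable def Φ (y : EE 1) : ℝ := φ1 (y 1) * φ1 (y 0)

theorem Φ_smooth : ContDiff ℝ ∞ Φ := by
  unfold Φ
  have h1 : ContDiff ℝ ∞ fun y : EE 1 => y 1 :=
    (EuclideanSpace.proj (𝕜 := ℝ) (1 : Fin (1 + 1))).contDiff
  have h0 : ContDiff ℝ ∞ fun y : EE 1 => y 0 :=
    (EuclideanSpace.proj (𝕜 := ℝ) (0 : Fin (1 + 1))).contDiff
  exact (φ1.contDiff.comp h1).mul (φ1.contDiff.comp h0)

theorem Φ_zero {y : EE 1} (hy : ¬ (|y 1| < 3 / 2 ∧ |y 0| < 3 / 2)) : Φ y = 0 := by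
  unfold Φ
  by_cases h1 : |y 1| < 3 / 2
  · have h0 : 3 / 2 ≤ |y 0| := not_lt.1 fun h => hy ⟨h1, h⟩
    rw [φ1.zero_of_le_dist (x := y 0) (by rw [Real.dist_eq, sub_zero]; exact h0), mul_zero]
  · rw [φ1.zero_of_le_dist (x := y 1) (by rw [Real.dist_eq, sub_zero]; exact not_lt.1 h1), zero_mul]

theorem Φ_one {y : EE 1} (h1 : |y 1| ≤ 1) (h0 : |y 0| ≤ 1) : Φ y = 1 := by
  unfold Φ
  rw [φ1.one_of_mem_closedBall (x := y 1) (by
    rw [mem_closedBall, Real.dist_eq, sub_zero]; exact h1),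
    φ1.one_of_mem_closedBall (x := y 0) (by
    rw [mem_closedBall, Real.dist_eq, sub_zero]; exact h0), mul_one]

theorem Φ_nonneg (y : EE 1) : 0 ≤ Φ y := mul_nonneg φ1.nonneg φ1.nonneg

theorem Φ_le_one (y : EE 1) : Φ y ≤ 1 := mul_le_one₀ φ1.le_one φ1.nonneg φ1.le_one

theorem Φ_supp : HasCompactSupport Φ := by
  apply HasCompactSupport.intro (isCompact_closedBall (0 : EE 1) 3)
  intro y hy
  apply Φ_zero
  rintro ⟨h1, h0⟩
  apply hy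
  rw [mem_closedBall, dist_eq_norm, sub_zero]
  have := norm_le_coord y
  linarith

theorem Φ_deriv : ∃ C : ℝ, 0 < C ∧ ∀ y, ‖fderiv ℝ Φ y‖ ≤ C := by
  obtain ⟨C, hC⟩ := (Φ_supp.fderiv (𝕜 := ℝ)).exists_bound_of_continuous
    (Φ_smooth.continuous_fderiv (by simp))
  exact ⟨|C| + 1, by positivity, fun y => (hC y).trans ((le_abs_self C).trans (by linarith))⟩

/-- scaled bump -/
noncomputable def ψ (p : EE 1) (ρ : ℝ) (y : EE 1) : ℝ := Φ (ρ⁻¹ • (y - p))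

theorem ψ_smooth (p : EE 1) (ρ : ℝ) : ContDiff ℝ ∞ (ψ p ρ) := by
  unfold ψ
  have h : ContDiff ℝ ∞ fun y : EE 1 => ρ⁻¹ • (y - p) := by fun_prop
  exact Φ_smooth.comp h

theorem ψ_deriv {C : ℝ} (hC : ∀ y, ‖fderiv ℝ Φ y‖ ≤ C) (p : EE 1) {ρ : ℝ} (hρ : 0 < ρ) (y : EE 1) :
    ‖fderiv ℝ (ψ p ρ) y‖ ≤ C / ρ := by
  have h1 : HasFDerivAt (fun y : EE 1 => ρ⁻¹ • (y - p)) (ρ⁻¹ • ContinuousLinearMap.id ℝ (EE 1)) y :=
    ((hasFDerivAt_id y).sub_const p).const_smul ρ⁻¹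
  have h2 : HasFDerivAt Φ (fderiv ℝ Φ (ρ⁻¹ • (y - p))) (ρ⁻¹ • (y - p)) :=
    ((Φ_smooth.differentiable (by simp)) _).hasFDerivAt
  have h3 := (h2.comp y h1).fderiv
  have e : fderiv ℝ (ψ p ρ) y = (fderiv ℝ Φ (ρ⁻¹ • (y - p))).comp
    (ρ⁻¹ • ContinuousLinearMap.id ℝ (EE 1)) := h3
  rw [e, ContinuousLinearMap.comp_smul, ContinuousLinearMap.comp_id, norm_smul, Real.norm_eq_abs,
    abs_of_pos (inv_pos.2 hρ), inv_mul_eq_div]
  gcongr
  exact hC _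

theorem ψ_coord (p : EE 1) (ρ : ℝ) (y : EE 1) (i : Fin (1 + 1)) :
    (ρ⁻¹ • (y - p) : EE 1) i = ρ⁻¹ * (y i - p i) := rfl

theorem ψ_one {p : EE 1} {ρ : ℝ} (hρ : 0 < ρ) (hp : p 0 = 0) {y : EE 1} (hy : y ∈ SQ (p 1) ρ) :
    ψ p ρ y = 1 := by
  obtain ⟨h1, h2, h3⟩ := hy
  apply Φ_one
  · rw [ψ_coord, abs_mul, abs_of_pos (inv_pos.2 hρ), inv_mul_le_iff₀ hρ, mul_one]
    exact h1
  · rw [ψ_coord, hp, sub_zero, abs_mul, abs_of_pos (inv_pos.2 hρ), inv_mul_le_iff₀ hρ, mul_one,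
      abs_of_nonneg h2]
    exact h3

theorem ψ_zero {p : EE 1} {ρ : ℝ} (hρ : 0 < ρ) (hp : p 0 = 0) {y : EE 1} (hy0 : 0 ≤ y 0)
    (hy : y ∉ SQ (p 1) (3 / 2 * ρ)) : ψ p ρ y = 0 := by
  apply Φ_zero
  rintro ⟨h1, h2⟩
  apply hy
  rw [ψ_coord, abs_mul, abs_of_pos (inv_pos.2 hρ), inv_mul_lt_iff₀ hρ] at h1 h2
  rw [hp, sub_zero, abs_of_nonneg hy0] at h2
  exact ⟨by linarith, hy0, by linarith⟩

theorem SQ_mono (x0 : ℝ) {r s : ℝ} (h : r ≤ s) : SQ x0 r ⊆ SQ x0 s := fun _ hy =>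
  ⟨hy.1.trans h, hy.2.1, hy.2.2.trans h⟩

variable {Ω : Type*} [TopologicalSpace Ω] [ChartedSpace (EuclideanHalfSpace (1 + 1)) Ω]
  [IsManifold (𝓡∂ (1 + 1)) ∞ Ω] [T2Space Ω]

open Classical in
/-- the cutoff function -/
noncomputable def zz (q : Ω) (ρ : ℝ) (x : Ω) : ℝ :=
  if x ∈ (ph 1 q).source then 1 - ψ (ph 1 q q) ρ (ph 1 q x) else 1

omit [IsManifold (𝓡∂ (1 + 1)) ∞ Ω] [T2Space Ω] in
theorem zz_far {q : Ω} (hq : (ph 1 q q) 0 = 0) {ρ : ℝ} (hρ : 0 < ρ) {x : Ω}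
    (hx : x ∉ UK 1 q (SQ (ph 1 q q 1) (3 / 2 * ρ))) : zz q ρ x = 1 := by
  unfold zz
  split_ifs with h
  · rw [ψ_zero hρ hq (ph_coord_nonneg q x) (fun h' => hx ⟨h, h'⟩), sub_zero]
  · rfl

omit [IsManifold (𝓡∂ (1 + 1)) ∞ Ω] in
theorem zz_nhds {q : Ω} (hq : (ph 1 q q) 0 = 0) {ρ : ℝ} (hρ : 0 < ρ)
    (hsub : SQ (ph 1 q q 1) (2 * ρ) ⊆ (ph 1 q).target) {x : Ω}
    (hx : x ∉ UK 1 q (SQ (ph 1 q q 1) (3 / 2 * ρ))) : zz q ρ =ᶠ[𝓝 x] fun _ => 1 := by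
  have hc : IsClosed (UK 1 q (SQ (ph 1 q q 1) (3 / 2 * ρ))) :=
    (UK_compact ((SQ_mono _ (by linarith)).trans hsub) (SQ_compact _ _)).isClosed
  filter_upwards [hc.isOpen_compl.mem_nhds hx] with y hy
  exact zz_far hq hρ hy

theorem zz_smooth {q : Ω} (hq : (ph 1 q q) 0 = 0) {ρ : ℝ} (hρ : 0 < ρ)
    (hsub : SQ (ph 1 q q 1) (2 * ρ) ⊆ (ph 1 q).target) :
    ContMDiff (𝓡∂ (1 + 1)) 𝓘(ℝ, ℝ) ∞ (zz q ρ) := by
  intro x
  by_cases hx : x ∈ (ph 1 q).source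
  · have h1 : ContMDiffOn (𝓡∂ (1 + 1)) 𝓘(ℝ, ℝ) ∞ (fun x => 1 - ψ (ph 1 q q) ρ (ph 1 q x))
        (chartAt (EuclideanHalfSpace (1 + 1)) q).source := by
      have h2 : ContDiff ℝ ∞ fun y => 1 - ψ (ph 1 q q) ρ y := contDiff_const.sub (ψ_smooth _ _)
      exact h2.contMDiff.comp_contMDiffOn (contMDiffOn_extChartAt (x := q))
    have h3 : (chartAt (EuclideanHalfSpace (1 + 1)) q).source ∈ 𝓝 x := by
      rw [← extChartAt_source (𝓡∂ (1 + 1))]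
      exact (isOpen_extChartAt_source q).mem_nhds hx
    apply (h1.contMDiffAt h3).congr_of_eventuallyEq
    filter_upwards [h3] with y hy
    unfold zz
    rw [if_pos (by rw [extChartAt_source]; exact hy)]
  · have hx' : x ∉ UK 1 q (SQ (ph 1 q q 1) (3 / 2 * ρ)) := fun h => hx h.1
    exact contMDiffAt_const.congr_of_eventuallyEq (zz_nhds hq hρ hsub hx')

theorem zz_Dloc {q : Ω} (ρ : ℝ) {y : EE 1} (hy : y ∈ (ph 1 q).target) :
    Dloc 1 q (zz q ρ) y = -fderiv ℝ (ψ (ph 1 q q) ρ) y := by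
  have h2 : HasFDerivWithinAt (fun y => 1 - ψ (ph 1 q q) ρ y) (-fderiv ℝ (ψ (ph 1 q q) ρ) y)
      (range (𝓡∂ (1 + 1))) y := by
    have := (((ψ_smooth (ph 1 q q) ρ).differentiable (by simp)) y).hasFDerivAt.const_sub 1
    exact this.hasFDerivWithinAt
  have e : ∀ z ∈ (ph 1 q).target, loc 1 q (zz q ρ) z = 1 - ψ (ph 1 q q) ρ z := by
    intro z hz
    unfold loc zz
    rw [if_pos ((ph 1 q).map_target hz), (ph 1 q).right_inv hz]
  have h3 : HasFDerivWithinAt (loc 1 q (zz q ρ)) (-fderiv ℝ (ψ (ph 1 q q) ρ) y)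
      (range (𝓡∂ (1 + 1))) y := by
    apply h2.congr_of_eventuallyEq
    · filter_upwards [target_nhds hy] with z hz
      exact e z hz
    · exact e y hy
  exact h3.fderivWithin ((𝓡∂ (1 + 1)).uniqueDiffOn _ (extChartAt_target_subset_range q hy))

/-- the averaging functional -/
noncomputable def ll (q : Ω) (ρ : ℝ) (hρ : 0 < ρ)
    (hsub : SQ (ph 1 q q 1) (2 * ρ) ⊆ (ph 1 q).target) :
    C^∞⟮𝓡∂ (1 + 1), Ω; 𝓘(ℝ, ℝ), ℝ⟯ →ₗ[ℝ] ℝ where
  toFun u := avT (ph 1 q q 1) ρ (loc 1 q u)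
  map_add' u v := by
    have hint : ∀ u : C^∞⟮𝓡∂ (1 + 1), Ω; 𝓘(ℝ, ℝ), ℝ⟯,
        IntegrableOn (loc 1 q u) (TT (ph 1 q q 1) ρ) := by
      intro u
      refine ContinuousOn.integrableOn_compact (BX_compact _ _ _ _) ?_
      apply (loc_contDiff u.contMDiff q).continuousOn.mono
      refine Subset.trans ?_ hsub
      rw [SQ_eq]
      rintro y ⟨h1, h2, h3⟩
      exact ⟨h1, by linarith, h3⟩
    unfold avT
    rw [← mul_add, ← integral_add (hint u) (hint v)]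
    rfl
  map_smul' a u := by
    have h := integral_const_mul (μ := volume.restrict (TT (ph 1 q q 1) ρ)) a (loc 1 q u)
    have e : ∫ z in TT (ph 1 q q 1) ρ, loc 1 q (⇑(a • u)) z =
      ∫ z in TT (ph 1 q q 1) ρ, a * loc 1 q u z := rfl
    unfold avT
    rw [RingHom.id_apply, smul_eq_mul, e, h, mul_left_comm]

variable [MeasurableSpace Ω] [BorelSpace Ω]

theorem surf_data [CompactSpace Ω] (g : RMetric 1 Ω) {q : Ω} (hq : q ∈ bd 1 Ω) :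
    ∃ R0 C : ℝ, 0 < R0 ∧ 0 < C ∧ SQ (ph 1 q q 1) (2 * R0) ⊆ (ph 1 q).target ∧
      ∀ ρ, 0 < ρ → ρ ≤ R0 →
      (∃ l : C^∞⟮𝓡∂ (1 + 1), Ω; 𝓘(ℝ, ℝ), ℝ⟯ →ₗ[ℝ] ℝ, ∀ μ ν : Measure Ω, IsVolume g μ →
        IsBdryVolume g ν → ∀ u : C^∞⟮𝓡∂ (1 + 1), Ω; 𝓘(ℝ, ℝ), ℝ⟯,
        ∫⁻ x in UK 1 q (AQ (ph 1 q q 1) ρ), Pool.Agent.W545.Man.sq (u x - l u) ∂μ ≤
          ENNReal.ofReal (C * ρ ^ 2) * ∫⁻ x in UK 1 q (AQ (ph 1 q q 1) ρ), gradSq g u x ∂μ ∧
        ∫⁻ x in UK 1 q (SQ (ph 1 q q 1) (2 * ρ)), Pool.Agent.W545.Man.sq (u x - l u) ∂ν ≤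
          ENNReal.ofReal (C * ρ) *
            ∫⁻ x in UK 1 q (SQ (ph 1 q q 1) (2 * ρ)), gradSq g u x ∂μ) ∧
      (∃ z : Ω → ℝ, ContMDiff (𝓡∂ (1 + 1)) 𝓘(ℝ, ℝ) ∞ z ∧ (∀ x, 0 ≤ z x ∧ z x ≤ 1) ∧
        (∀ x ∈ UK 1 q (SQ (ph 1 q q 1) ρ), z x = 0) ∧
        (∀ x ∉ UK 1 q (SQ (ph 1 q q 1) (2 * ρ)), z x = 1) ∧
        ∀ x, gradSq g z x ≤ ENNReal.ofReal (C / ρ ^ 2)) := by
  have hq0 : (ph 1 q q) 0 = 0 := (mem_bd_iff (mem_extChartAt_source q)).1 hq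
  obtain ⟨r, hr, hrt, -⟩ := chart_nhds (d := 1) (c := q) univ_mem
  have hsub0 : SQ (ph 1 q q 1) (2 * (r / 4)) ⊆ (ph 1 q).target := by
    refine Subset.trans ?_ hrt
    rintro y ⟨h1, h2, h3⟩
    refine ⟨?_, h2⟩
    rw [mem_closedBall, dist_eq_norm]
    refine (norm_le_coord _).trans ?_
    have e1 : (y - ph 1 q q : EE 1) 1 = y 1 - (ph 1 q q) 1 := rfl
    have e0 : (y - ph 1 q q : EE 1) 0 = y 0 - (ph 1 q q) 0 := rfl
    rw [e1, e0, hq0, sub_zero, abs_of_nonneg h2]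
    linarith
  have hc0 := SQ_compact (ph 1 q q 1) (2 * (r / 4))
  obtain ⟨a1, b1, ha1, hb1, h1⟩ := vol_bounds g q hsub0 hc0
  obtain ⟨a2, b2, ha2, hb2, h2⟩ := bvol_bounds g q hsub0 hc0
  obtain ⟨a, ha, h3⟩ := energy_lower g q hsub0 hc0
  obtain ⟨a4, b4, ha4, hb4, h4⟩ := coeff_bounds g q hc0 hsub0
  obtain ⟨C3, hC3, hΦ⟩ := Φ_deriv
  have hC2 := C2_nonneg
  refine ⟨r / 4, b1 * 1700 * a⁻¹ + b2 * C2 * a⁻¹ + a4⁻¹ * C3 ^ 2, by positivity, by positivity,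
    hsub0, ?_⟩
  intro ρ hρ hρR
  have hSS : SQ (ph 1 q q 1) (2 * ρ) ⊆ SQ (ph 1 q q 1) (2 * (r / 4)) := SQ_mono _ (by linarith)
  have hsub := hSS.trans hsub0
  have hAS : AQ (ph 1 q q 1) ρ ⊆ SQ (ph 1 q q 1) (2 * ρ) := inter_subset_left
  have ha0 : ENNReal.ofReal a ≠ 0 := by rw [Ne, ENNReal.ofReal_eq_zero, not_le]; exact ha
  have hran : SQ (ph 1 q q 1) (2 * ρ) ⊆ range (𝓡∂ (1 + 1)) := by
    rw [range_modelWithCornersEuclideanHalfSpace]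
    exact fun y hy => hy.2.1
  refine ⟨⟨ll q ρ hρ hsub, ?_⟩, zz q ρ, zz_smooth hq0 hρ hsub, ?_, ?_, ?_, ?_⟩
  · intro μ ν hμ hν u
    have hwc : ContinuousOn (loc 1 q u) (SQ (ph 1 q q 1) (2 * ρ)) :=
      (loc_contDiff u.contMDiff q).continuousOn.mono hsub
    have hL := (Dloc_cont u.contMDiff q).mono hsub
    have hw : ∀ y ∈ SQ (ph 1 q q 1) (2 * ρ), HasFDerivWithinAt (loc 1 q u) (Dloc 1 q u y)
        (SQ (ph 1 q q 1) (2 * ρ)) y := fun y hy => (Dloc_has u.contMDiff (hsub hy)).mono hran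
    have hcont : ContinuousOn (fun y => Pool.Agent.W545.Man.sq (loc 1 q u y - avT (ph 1 q q 1) ρ (loc 1 q u)))
        (SQ (ph 1 q q 1) (2 * ρ)) := by
      unfold Pool.Agent.W545.Man.sq
      exact ENNReal.continuous_ofReal.comp_continuousOn ((hwc.sub continuousOn_const).pow 2)
    constructor
    · have e1 := (h1 μ hμ _ (hAS.trans hSS) (AQ_compact hρ)
        (fun x => Pool.Agent.W545.Man.sq (u x - avT (ph 1 q q 1) ρ (loc 1 q u))) _ (hcont.mono hAS) (by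
          intro x hx
          rw [loc_val hx.1])).2
      have e2 := euclid_bulk hρ (hL.mono hAS) (fun y hy => (hw y (hAS hy)).mono hAS) (hwc.mono hAS)
      have e3 := h3 μ hμ _ (hAS.trans hSS) (AQ_compact hρ) u u.contMDiff
      have e4 := le_inv_mul' ha0 ENNReal.ofReal_ne_top e3
      calc ∫⁻ x in UK 1 q (AQ (ph 1 q q 1) ρ), Pool.Agent.W545.Man.sq (u x - avT (ph 1 q q 1) ρ (loc 1 q u)) ∂μ
          ≤ ENNReal.ofReal b1 * (ENNReal.ofReal (1700 * ρ ^ 2) * ((ENNReal.ofReal a)⁻¹ *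
            ∫⁻ x in UK 1 q (AQ (ph 1 q q 1) ρ), gradSq g u x ∂μ)) := by
            refine e1.trans ?_
            gcongr
            exact e2.trans (by gcongr)
        _ = (ENNReal.ofReal b1 * ENNReal.ofReal (1700 * ρ ^ 2) * (ENNReal.ofReal a)⁻¹) *
            ∫⁻ x in UK 1 q (AQ (ph 1 q q 1) ρ), gradSq g u x ∂μ := by ring
        _ ≤ _ := by
            gcongr
            rw [← ENNReal.ofReal_inv_of_pos ha, ← ENNReal.ofReal_mul hb1.le,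
              ← ENNReal.ofReal_mul (by positivity)]
            apply ENNReal.ofReal_le_ofReal
            have e5 : b1 * (1700 * ρ ^ 2) * a⁻¹ = (b1 * 1700 * a⁻¹) * ρ ^ 2 := by ring
            rw [e5]
            gcongr
            have : 0 ≤ b2 * C2 * a⁻¹ := by positivity
            have : 0 ≤ a4⁻¹ * C3 ^ 2 := by positivity
            linarith
    · have hset : {x : FF 1 | inj x ∈ SQ (ph 1 q q 1) (2 * ρ)} ⊆
          closedBall (tailL 1 (ph 1 q q)) (2 * ρ) := by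
        intro x hx
        rw [mem_closedBall, dist_eq_norm, EuclideanSpace.norm_eq, Fin.sum_univ_one,
          Real.sqrt_sq (norm_nonneg _)]
        exact hx.1
      have e1 := (h2 ν hν _ hSS (SQ_compact _ _)
        (fun x => Pool.Agent.W545.Man.sq (u x - avT (ph 1 q q 1) ρ (loc 1 q u))) _ hcont (by
          intro x hx
          rw [loc_val hx.1])).2
      have e2 : ∫⁻ x in closedBall (tailL 1 (ph 1 q q)) (2 * ρ),
          Pool.Agent.W545.Man.sq (loc 1 q u (inj x) - avT (ph 1 q q 1) ρ (loc 1 q u)) ≤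
          ENNReal.ofReal (C2 * ρ) * ∫⁻ y in SQ (ph 1 q q 1) (2 * ρ), Pool.Agent.W545.Man.sq ‖Dloc 1 q u y‖ :=
        euclid_trace (p := tailL 1 (ph 1 q q)) hρ hL hw hwc
      have e3 := h3 μ hμ _ hSS (SQ_compact _ _) u u.contMDiff
      have e4 := le_inv_mul' ha0 ENNReal.ofReal_ne_top e3
      calc ∫⁻ x in UK 1 q (SQ (ph 1 q q 1) (2 * ρ)),
            Pool.Agent.W545.Man.sq (u x - avT (ph 1 q q 1) ρ (loc 1 q u)) ∂ν
          ≤ ENNReal.ofReal b2 * (ENNReal.ofReal (C2 * ρ) * ((ENNReal.ofReal a)⁻¹ *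
            ∫⁻ x in UK 1 q (SQ (ph 1 q q 1) (2 * ρ)), gradSq g u x ∂μ)) := by
            refine e1.trans ?_
            gcongr
            exact (lintegral_mono_set hset).trans (e2.trans (by gcongr))
        _ = (ENNReal.ofReal b2 * ENNReal.ofReal (C2 * ρ) * (ENNReal.ofReal a)⁻¹) *
            ∫⁻ x in UK 1 q (SQ (ph 1 q q 1) (2 * ρ)), gradSq g u x ∂μ := by ring
        _ ≤ _ := by
            gcongr
            rw [← ENNReal.ofReal_inv_of_pos ha, ← ENNReal.ofReal_mul hb2.le,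
              ← ENNReal.ofReal_mul (by positivity)]
            apply ENNReal.ofReal_le_ofReal
            have e5 : b2 * (C2 * ρ) * a⁻¹ = (b2 * C2 * a⁻¹) * ρ := by ring
            rw [e5]
            gcongr
            have : 0 ≤ b1 * 1700 * a⁻¹ := by positivity
            have : 0 ≤ a4⁻¹ * C3 ^ 2 := by positivity
            linarith
  · intro x
    unfold zz
    split_ifs with h
    · have h5 := Φ_nonneg (ρ⁻¹ • (ph 1 q x - ph 1 q q))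
      have h6 := Φ_le_one (ρ⁻¹ • (ph 1 q x - ph 1 q q))
      unfold ψ
      constructor <;> linarith
    · exact ⟨zero_le_one, le_rfl⟩
  · intro x hx
    unfold zz
    rw [if_pos hx.1, ψ_one hρ hq0 hx.2, sub_self]
  · intro x hx
    exact zz_far hq0 hρ (fun h => hx ⟨h.1, SQ_mono _ (by linarith) h.2⟩)
  · intro x
    by_cases hx : x ∈ UK 1 q (SQ (ph 1 q q 1) (2 * ρ))
    · have hdiff : MDifferentiableAt (𝓡∂ (1 + 1)) 𝓘(ℝ, ℝ) (zz q ρ) x :=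
        (zz_smooth hq0 hρ hsub x).mdifferentiableAt (by simp)
      rw [gradSq_chart g hx.1 hdiff]
      refine (sup_le_of_bound ha4 (fun v => ?_)).trans ?_
      · have := (h4 _ (hSS hx.2) v).1
        rwa [(ph 1 q).left_inv hx.1] at this
      · apply ENNReal.ofReal_le_ofReal
        rw [zz_Dloc ρ (hsub hx.2), norm_neg]
        have h5 := ψ_deriv hΦ (ph 1 q q) hρ (ph 1 q x)
        calc a4⁻¹ * ‖fderiv ℝ (ψ (ph 1 q q) ρ) (ph 1 q x)‖ ^ 2 ≤ a4⁻¹ * (C3 / ρ) ^ 2 := by gcongr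
          _ = (a4⁻¹ * C3 ^ 2) / ρ ^ 2 := by field_simp
          _ ≤ _ := by
            gcongr
            have : 0 ≤ b1 * 1700 * a⁻¹ := by positivity
            have : 0 ≤ b2 * C2 * a⁻¹ := by positivity
            linarith
    · have h5 := zz_nhds hq0 hρ hsub (x := x)
        (fun h => hx ⟨h.1, SQ_mono _ (by linarith) h.2⟩)
      have h6 : dif (d := 1) (zz q ρ) x = 0 := by
        unfold dif
        rw [h5.mfderiv_eq]
        exact mfderiv_const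
      unfold gradSq
      rw [h6]
      simp

end Pool.Agent.W749.D1
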